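import Pool.Agent.Y813.RL.Wall
import Pool.Agent.Y813.RL.HI
import Pool.Agent.Q248.RL.Stm2

set_option autoImplicit false

/-!
# Fourier facts on Jacobi forms of lattice index (joint work for MP_f1d0b6_nt)
-/

open MeasureTheory Complex Set Topology

namespace Pool.Agent.H140.RL

open Pool.Agent.Y813.RL

noncomputable section

/-! ### periodic functions on `ℝ^20` -/

/-- lift of a function on `ℝ^20` to the torus -/
def lift0 (g : (Fin 20 → ℝ) → ℂ) (t : UnitAddTorus (Fin 20)) : ℂ :=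
  g (fun i => ((AddCircle.equivIoc (1 : ℝ) 0 (t i)).1))

theorem lift0_mk {g : (Fin 20 → ℝ) → ℂ}
    (hg : ∀ (x : Fin 20 → ℝ) (v : Fin 20 → ℤ), g (fun i => x i + (v i : ℝ)) = g x)
    (x : Fin 20 → ℝ) : lift0 g (fun i => (x i : UnitAddCircle)) = g x := by
  unfold lift0
  have h1 : ∀ i, ∃ n : ℤ, (AddCircle.equivIoc (1 : ℝ) 0 (x i : UnitAddCircle)).1 = x i + n := by
    intro i
    have h2 : (((AddCircle.equivIoc (1 : ℝ) 0 (x i : UnitAddCircle)).1 : ℝ) : UnitAddCircle)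
        = (x i : UnitAddCircle) := AddCircle.coe_equivIoc
    have h3 : (((AddCircle.equivIoc (1 : ℝ) 0 (x i : UnitAddCircle)).1 - x i : ℝ) : UnitAddCircle)
        = 0 := by
      rw [AddCircle.coe_sub, h2, sub_self]
    obtain ⟨n, hn⟩ := (AddCircle.coe_eq_zero_iff (1 : ℝ)).1 h3
    refine ⟨n, ?_⟩
    rw [zsmul_eq_mul, mul_one] at hn
    linarith
  choose n hn using h1
  have : (fun i => (AddCircle.equivIoc (1 : ℝ) 0 (x i : UnitAddCircle)).1)
      = fun i => x i + (n i : ℝ) := funext hn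
  rw [this, hg]

theorem box_ae : ({x : Fin 20 → ℝ | ∀ i, x i ∈ Ioc ((0 : Fin 20 → ℝ) i) ((0 : Fin 20 → ℝ) i + 1)})
    =ᵐ[volume] (Icc (0 : Fin 20 → ℝ) 1) := by
  have h1 : {x : Fin 20 → ℝ | ∀ i, x i ∈ Ioc ((0 : Fin 20 → ℝ) i) ((0 : Fin 20 → ℝ) i + 1)}
      = univ.pi fun i => Ioc ((0 : Fin 20 → ℝ) i) ((1 : Fin 20 → ℝ) i) := by
    ext x
    simp
  rw [h1]
  exact Measure.univ_pi_Ioc_ae_eq_Icc

theorem box_eq {g : (Fin 20 → ℝ) → ℂ}
    (hg : ∀ (x : Fin 20 → ℝ) (v : Fin 20 → ℤ), g (fun i => x i + (v i : ℝ)) = g x)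
    (a : Fin 20 → ℝ) : ∫ x in {x : Fin 20 → ℝ | ∀ i, x i ∈ Ioc (a i) (a i + 1)}, g x
      = ∫ x in Icc (0 : Fin 20 → ℝ) 1, g x := by
  have h1 := UnitAddTorus.integral_preimage (lift0 g) a
  have h2 := UnitAddTorus.integral_preimage (lift0 g) 0
  rw [h1] at h2
  simp only [lift0_mk hg] at h2
  rw [h2]
  exact setIntegral_congr_set box_ae

/-- invariance under real translations -/
theorem trans_eq {g : (Fin 20 → ℝ) → ℂ}
    (hg : ∀ (x : Fin 20 → ℝ) (v : Fin 20 → ℤ), g (fun i => x i + (v i : ℝ)) = g x)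
    (a : Fin 20 → ℝ) : ∫ y in Icc (0 : Fin 20 → ℝ) 1, g (fun i => a i + y i)
      = ∫ x in Icc (0 : Fin 20 → ℝ) 1, g x := by
  rw [← box_eq hg a, ← setIntegral_congr_set box_ae]
  have hm : ∀ b : Fin 20 → ℝ,
      MeasurableSet {x : Fin 20 → ℝ | ∀ i, x i ∈ Ioc (b i) (b i + 1)} := fun b =>
    MeasurableSet.univ_pi' (fun i => measurableSet_Ioc)
  rw [← integral_indicator (hm _), ← integral_indicator (hm _)]
  rw [← integral_add_left_eq_self
    (Set.indicator {x : Fin 20 → ℝ | ∀ i, x i ∈ Ioc (a i) (a i + 1)} g) a]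
  refine integral_congr_ae (Filter.Eventually.of_forall fun y => ?_)
  simp only [Set.indicator, Set.mem_ofPred_eq, Pi.zero_apply, Pi.add_apply, zero_add, Set.mem_Ioc]
  have : (∀ i, 0 < y i ∧ y i ≤ 1) ↔ ∀ i, a i < a i + y i ∧ a i + y i ≤ a i + 1 :=
    forall_congr' fun i => by
      constructor
      · rintro ⟨h1, h2⟩; exact ⟨by linarith, by linarith⟩
      · rintro ⟨h1, h2⟩; exact ⟨by linarith, by linarith⟩
  by_cases h : ∀ i, 0 < y i ∧ y i ≤ 1
  · rw [if_pos h, if_pos (this.1 h)]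
    rfl
  · rw [if_neg h, if_neg (fun h' => h (this.2 h'))]

/-- a set integral over the unit cube of an entire function, with a complex shift -/
def WI (H : (Fin 20 → ℂ) → ℂ) (w : Fin 20 → ℂ) : ℂ :=
  ∫ y in Icc (0 : Fin 20 → ℝ) 1, H (fun i => w i + (y i : ℂ))

theorem WI_diff {H : (Fin 20 → ℂ) → ℂ} (hH : Differentiable ℂ H) : Differentiable ℂ (WI H) := by
  rw [← differentiableOn_univ]
  unfold WI
  refine differentiableOn_setIntegral volume isCompact_Icc measurableSet_Icc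
    (by rw [Real.volume_Icc_pi]; simp) isOpen_univ
    (f := fun (w : Fin 20 → ℂ) (y : Fin 20 → ℝ) => H (fun i => w i + (y i : ℂ))) ?_ ?_
  · have := hH.continuous
    exact (this.comp (by fun_prop)).continuousOn
  · intro x _
    have : Differentiable ℂ fun w : Fin 20 → ℂ => (fun i => w i + (x i : ℂ)) := by fun_prop
    exact (hH.comp this).differentiableOn

/-- **contour shift** -/
theorem WI_const {H : (Fin 20 → ℂ) → ℂ} (hH : Differentiable ℂ H)
    (hp : ∀ (z : Fin 20 → ℂ) (v : Fin 20 → ℤ), H (fun i => z i + (v i : ℂ)) = H z)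
    (w : Fin 20 → ℂ) : WI H w = WI H 0 := by
  have hreal : ∀ (a : Fin 20 → ℝ) (b : Fin 20 → ℂ), WI H (fun i => (a i : ℂ) + b i) = WI H b := by
    intro a b
    have h1 := trans_eq (g := fun y => H (fun i => b i + (y i : ℂ))) (by
      intro x v
      have := hp (fun i => b i + (x i : ℂ)) v
      simp only at this ⊢
      rw [← this]
      congr 1
      funext i
      push_cast
      ring) a
    unfold WI
    rw [← h1]
    refine integral_congr_ae (Filter.Eventually.of_forall fun y => ?_)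
    simp only
    congr 1
    funext i
    push_cast
    ring
  set h : ℂ → ℂ := fun s => WI H (fun i => ((w i).re : ℂ) + s * ((w i).im : ℂ)) with hh
  have hd : Differentiable ℂ h := by
    have : Differentiable ℂ fun s : ℂ => (fun i => ((w i).re : ℂ) + s * ((w i).im : ℂ)) := by
      fun_prop
    exact (WI_diff hH).comp this
  have hr : ∀ s : ℝ, h (s : ℂ) = WI H 0 := by
    intro s
    have := hreal (fun i => (w i).re + s * (w i).im) 0
    simp only [hh]
    rw [← this]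
    congr 1
    funext i
    simp
  have h2 : h = fun _ => WI H 0 := by
    refine AnalyticOnNhd.eq_of_frequently_eq (z₀ := 0) (fun z _ => hd.analyticAt z)
      (fun z _ => analyticAt_const) ?_
    have hfreq : ∃ᶠ x in 𝓝[≠] (0 : ℝ), True := by
      rw [Filter.frequently_true_iff_neBot]
      infer_instance
    have ht : Filter.Tendsto (fun x : ℝ => (x : ℂ)) (𝓝[≠] 0) (𝓝[≠] 0) := by
      refine tendsto_nhdsWithin_iff.2 ⟨?_, ?_⟩
      · have : Filter.Tendsto (fun x : ℝ => (x : ℂ)) (𝓝 0) (𝓝 ((0 : ℝ) : ℂ)) :=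
          Complex.continuous_ofReal.tendsto 0
        simp only [ofReal_zero] at this
        exact this.mono_left nhdsWithin_le_nhds
      · filter_upwards [self_mem_nhdsWithin] with x hx
        simpa using hx
    exact ht.frequently (hfreq.mono fun x _ => hr x)
  have h3 := congrFun h2 Complex.I
  simp only [hh] at h3
  rw [← h3]
  congr 1
  funext i
  rw [mul_comm]
  exact (Complex.re_add_im (w i)).symm

/-! ### Jacobi forms -/

variable {A : Matrix (Fin 20) (Fin 20) ℤ} {c : ℂ → (Fin 20 → ℂ) → ℂ}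

theorem dt_int (μ v : Fin 20 → ℤ) : dt μ (fun i => (v i : ℂ)) = ((dt μ v : ℤ) : ℂ) := by
  simp [dt]

theorem slice_diff (hc : JacobiZero A c) {τ : ℂ} (hτ : 0 < τ.im) : Differentiable ℂ (c τ) := by
  rw [← differentiableOn_univ]
  have h1 : DifferentiableOn ℂ (fun z : Fin 20 → ℂ => ((τ, z) : ℂ × (Fin 20 → ℂ))) univ := by
    fun_prop
  exact hc.holo.comp h1 fun z _ => hτ

theorem ee_differentiable : Differentiable ℂ ee := by
  unfold ee
  fun_prop

theorem ee_continuous : Continuous ee := ee_differentiable.continuous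

theorem dt_diff (μ : Fin 20 → ℤ) : Differentiable ℂ (fun z : Fin 20 → ℂ => dt μ z) := by
  unfold dt
  fun_prop

theorem shift_fc (hc : JacobiZero A c) (μ : Fin 20 → ℤ) {τ : ℂ} (hτ : 0 < τ.im)
    (w : Fin 20 → ℂ) : fc c μ τ =
    ∫ y in Set.Icc (0 : Fin 20 → ℝ) 1, c τ (fun i => w i + (y i : ℂ)) *
      ee (-(dt μ (fun i => w i + (y i : ℂ)))) := by
  have h1 := WI_const (H := fun z => c τ z * ee (-(dt μ z)))
    ((slice_diff hc hτ).mul (ee_differentiable.comp (dt_diff μ).neg)) (by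
      intro z v
      rw [hc.perz τ z v hτ]
      congr 1
      have : dt μ (fun i => z i + (v i : ℂ)) = dt μ z + ((dt μ v : ℤ) : ℂ) := by
        rw [← dt_int, ← dt_add]
        rfl
      rw [this, neg_add, ee_add, ← Int.cast_neg, ee_int, mul_one]) w
  unfold WI at h1
  rw [h1]
  unfold fc
  simp

theorem fc_holo (hc : JacobiZero A c) (μ : Fin 20 → ℤ) :
    DifferentiableOn ℂ (fc c μ) {τ | 0 < τ.im} := by
  have hop : IsOpen {τ : ℂ | 0 < τ.im} := isOpen_lt continuous_const Complex.continuous_im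
  refine differentiableOn_setIntegral volume isCompact_Icc measurableSet_Icc
    (by rw [Real.volume_Icc_pi]; simp) hop
    (f := fun τ (y : Fin 20 → ℝ) => c τ (fun i => (y i : ℂ)) * ee (-(dt μ (fun i => (y i : ℂ)))))
    ?_ ?_
  · refine ContinuousOn.mul ?_ ?_
    · refine hc.holo.continuousOn.comp
        (f := fun q : ℂ × (Fin 20 → ℝ) => ((q.1, fun i => (q.2 i : ℂ)) : ℂ × (Fin 20 → ℂ)))
        (by fun_prop) ?_
      rintro ⟨τ, y⟩ h
      exact h.1
    · refine Continuous.continuousOn ?_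
      refine ee_continuous.comp (Continuous.neg ?_)
      unfold dt
      fun_prop
  · intro y _
    refine DifferentiableOn.mul ?_ (differentiableOn_const _)
    exact hc.holo.comp (f := fun τ : ℂ => ((τ, fun i => (y i : ℂ)) : ℂ × (Fin 20 → ℂ)))
      (by fun_prop) fun τ h => h

theorem fc_per (hc : JacobiZero A c) (μ : Fin 20 → ℤ) {τ : ℂ} (hτ : 0 < τ.im) :
    fc c μ (τ + 1) = fc c μ τ := by
  unfold fc
  refine integral_congr_ae (Filter.Eventually.of_forall fun y => ?_)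
  simp only
  rw [hc.perτ τ _ hτ]

theorem bf_int_left (hA : A.IsSymm) (v : Fin 20 → ℤ) (z : Fin 20 → ℂ) :
    bf A (fun i => (v i : ℂ)) z = dt (A.mulVec v) z := by
  unfold bf dt Matrix.mulVec dotProduct
  rw [Finset.sum_comm]
  refine Finset.sum_congr rfl fun j _ => ?_
  rw [Int.cast_sum, Finset.sum_mul]
  refine Finset.sum_congr rfl fun i _ => ?_
  rw [hA.apply]
  push_cast
  ring

theorem bd_shift (h : PosSymm A) (μ v : Fin 20 → ℤ) :
    (bd A (μ + A.mulVec v) (μ + A.mulVec v) : ℂ) = (bd A μ μ : ℂ)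
      + 2 * dt μ (fun i => (v i : ℂ)) + bf A (fun i => (v i : ℂ)) (fun i => (v i : ℂ)) := by
  have hlam : lam A (μ + A.mulVec v) = lam A μ + fun i => (v i : ℝ) := by
    have : lam A (μ + A.mulVec v) = lam A μ + lam A (A.mulVec v) := by
      unfold lam
      rw [← Matrix.mulVec_add]
      congr 1
      funext i
      simp
    rw [this, lam_mulVec h]
  have h1 : bd A (μ + A.mulVec v) (μ + A.mulVec v) = bd A μ μ + 2 * dt μ (fun i => (v i : ℝ))
      + bf A (fun i => (v i : ℝ)) (fun i => (v i : ℝ)) := by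
    rw [← bf_lam_lam h, hlam, bf_add_left, bf_add_right, bf_add_right, bf_lam_lam h,
      bf_comm h.symm (fun i => (v i : ℝ)) (lam A μ)]
    have := bf_lam h μ (fun i => (v i : ℝ))
    linarith
  rw [h1]
  have e1 : dt μ (fun i => (v i : ℂ)) = ((dt μ (fun i => (v i : ℝ)) : ℝ) : ℂ) := by
    simp [dt]
  have e2 : bf A (fun i => (v i : ℂ)) (fun i => (v i : ℂ))
      = ((bf A (fun i => (v i : ℝ)) (fun i => (v i : ℝ)) : ℝ) : ℂ) := by
    simp [bf]
  rw [e1, e2]
  push_cast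
  ring

theorem fc_shift (h : PosSymm A) (hc : JacobiZero A c) (μ v : Fin 20 → ℤ) {τ : ℂ}
    (hτ : 0 < τ.im) : fc c μ τ = ee (-(τ * (dt μ (fun i => (v i : ℂ)) +
      bf A (fun i => (v i : ℂ)) (fun i => (v i : ℂ)) / 2))) * fc c (μ + A.mulVec v) τ := by
  rw [shift_fc hc μ hτ (fun i => τ * (v i : ℂ))]
  unfold fc
  rw [← integral_const_mul]
  refine integral_congr_ae (Filter.Eventually.of_forall fun y => ?_)
  simp only
  have h1 := hc.quasi τ (fun i => (y i : ℂ)) v hτ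
  have e0 : (fun i => τ * (v i : ℂ) + (y i : ℂ)) = fun i => (y i : ℂ) + τ * (v i : ℂ) := by
    funext i; ring
  rw [e0, h1, bf_int_left h.symm, dt_add_left]
  have e1 : dt μ (fun i => (y i : ℂ) + τ * (v i : ℂ)) = dt μ (fun i => (y i : ℂ))
      + τ * dt μ (fun i => (v i : ℂ)) := by
    rw [← dt_smul, ← dt_add]
    rfl
  rw [e1, mul_comm (ee _) (c τ _), mul_assoc, ← ee_add, mul_comm (ee _) (c τ _ * _), mul_assoc,
    ← ee_add]
  congr 2
  ring

theorem vf_inv (h : PosSymm A) (hc : JacobiZero A c) (μ v : Fin 20 → ℤ) {τ : ℂ}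
    (hτ : 0 < τ.im) : vf A c (μ + A.mulVec v) τ = vf A c μ τ := by
  unfold vf
  rw [fc_shift h hc μ v hτ, ← mul_assoc, ← ee_add, bd_shift h μ v]
  congr 2
  ring

theorem theta1a : ∀ (A : Matrix (Fin 20) (Fin 20) ℤ) (c : ℂ → (Fin 20 → ℂ) → ℂ),
  PosSymm A → JacobiZero A c →
  (∀ μ, DifferentiableOn ℂ (fc c μ) {τ | 0 < τ.im}) ∧
  (∀ μ (τ : ℂ), 0 < τ.im → fc c μ (τ + 1) = fc c μ τ) ∧
  -- shift of the contour
  (∀ μ (τ : ℂ) (w : Fin 20 → ℂ), 0 < τ.im → fc c μ τ =
    ∫ y in Set.Icc (0 : Fin 20 → ℝ) 1, c τ (fun i => w i + (y i : ℂ)) *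
      ee (-(dt μ (fun i => w i + (y i : ℂ))))) ∧
  (∀ μ (v : Fin 20 → ℤ) (τ : ℂ), 0 < τ.im → vf A c (μ + A.mulVec v) τ = vf A c μ τ) := by
  intro A c h hc
  exact ⟨fc_holo hc, fun μ τ hτ => fc_per hc μ hτ, fun μ τ w hτ => shift_fc hc μ hτ w,
    fun μ v τ hτ => vf_inv h hc μ v hτ⟩

end

end Pool.Agent.H140.RL
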