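import Pool.Agent.H140.RL.Theta1

set_option autoImplicit false

/-!
# The Fourier expansion of Jacobi forms of lattice index (joint work for MP_f1d0b6_nt)
-/

open MeasureTheory Complex Set Topology

namespace Pool.Agent.H140.RL

open Pool.Agent.Y813.RL

noncomputable section

theorem lift0_continuous {g : (Fin 20 → ℝ) → ℂ}
    (hg : ∀ (x : Fin 20 → ℝ) (v : Fin 20 → ℤ), g (fun i => x i + (v i : ℝ)) = g x)
    (hc : Continuous g) : Continuous (lift0 g) := by
  have h1 : IsOpenQuotientMap (Pi.map fun (_ : Fin 20) (x : ℝ) => (x : UnitAddCircle)) :=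
    IsOpenQuotientMap.piMap fun _ => QuotientAddGroup.isOpenQuotientMap_mk
  rw [← h1.continuous_comp_iff]
  have : lift0 g ∘ (Pi.map fun (_ : Fin 20) (x : ℝ) => (x : UnitAddCircle)) = g := by
    funext x
    exact lift0_mk hg x
  rw [this]
  exact hc

theorem mFourier_mk (μ : Fin 20 → ℤ) (x : Fin 20 → ℝ) :
    UnitAddTorus.mFourier μ (fun i => (x i : UnitAddCircle)) = ee (dt μ (fun i => (x i : ℂ))) := by
  unfold UnitAddTorus.mFourier
  simp only [ContinuousMap.coe_mk]
  simp only [fourier_coe_apply]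
  rw [← Complex.exp_sum]
  unfold ee dt
  congr 1
  rw [Finset.mul_sum]
  refine Finset.sum_congr rfl fun i _ => ?_
  push_cast
  ring

/-- summability of products over `Fin n → ℤ` -/
theorem summable_prod (a : ℤ → ℝ) (h0 : ∀ m, 0 ≤ a m) (ha : Summable a) (n : ℕ) :
    Summable fun μ : Fin n → ℤ => ∏ i, a (μ i) := by
  induction n with
  | zero =>
    have : Finite (Fin 0 → ℤ) := inferInstance
    exact Summable.of_finite
  | succ n ih =>
    have h1 : Summable fun p : ℤ × (Fin n → ℤ) => a p.1 * ∏ i, a (p.2 i) :=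
      Summable.mul_of_nonneg ha ih h0 fun μ => Finset.prod_nonneg fun i _ => h0 _
    have h2 := (Equiv.summable_iff (Fin.consEquiv fun _ : Fin (n + 1) => ℤ).symm).2 h1
    refine h2.congr fun μ => ?_
    simp only [Function.comp_apply]
    rw [Fin.prod_univ_succ]
    rfl

theorem summable_exp_abs : Summable fun m : ℤ => Real.exp (-(2 * Real.pi * |(m : ℝ)|)) := by
  have h : Summable fun n : ℕ => Real.exp (-(2 * Real.pi)) ^ n :=
    summable_geometric_of_lt_one (Real.exp_pos _).le (by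
      rw [Real.exp_lt_one_iff]
      have := Real.pi_pos
      linarith)
  refine Summable.of_nat_of_neg ?_ ?_
  · refine h.congr fun n => ?_
    rw [← Real.exp_nat_mul]
    congr 1
    simp
    ring
  · refine h.congr fun n => ?_
    rw [← Real.exp_nat_mul]
    congr 1
    simp
    ring

variable {A : Matrix (Fin 20) (Fin 20) ℤ} {c : ℂ → (Fin 20 → ℂ) → ℂ}

/-- the signs -/
def sg (μ : Fin 20 → ℤ) : Fin 20 → Bool := fun i => decide (0 ≤ μ i)

/-- the shift -/
def shv (z : Fin 20 → ℂ) (s : Fin 20 → Bool) : Fin 20 → ℂ := fun i =>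
  z i - (if s i then (1 : ℂ) else -1) * Complex.I

theorem fc_decay (hc : JacobiZero A c) {τ : ℂ} (hτ : 0 < τ.im) (z : Fin 20 → ℂ) :
    ∃ M : ℝ, ∀ μ : Fin 20 → ℤ, ‖fc c μ τ * ee (dt μ z)‖
      ≤ M * ∏ i, Real.exp (-(2 * Real.pi * |(μ i : ℝ)|)) := by
  have hcont := (slice_diff hc hτ).continuous
  have h1 : ∀ s : Fin 20 → Bool, ∃ M : ℝ, ∀ y ∈ Icc (0 : Fin 20 → ℝ) 1,
      ‖c τ (fun i => shv z s i + (y i : ℂ))‖ ≤ M := by
    intro s
    exact isCompact_Icc.exists_bound_of_continuousOn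
      (f := fun y : Fin 20 → ℝ => c τ (fun i => shv z s i + (y i : ℂ)))
      (hcont.comp (by fun_prop)).continuousOn
  choose M hM using h1
  refine ⟨∑ s, |M s|, fun μ => ?_⟩
  set s := sg μ with hs
  rw [shift_fc hc μ hτ (shv z s), norm_mul]
  have hvol : (volume (Icc (0 : Fin 20 → ℝ) 1)) = 1 := by
    rw [Real.volume_Icc_pi]; simp
  have him : ∀ y : Fin 20 → ℝ, ‖ee (-(dt μ (fun i => shv z s i + (y i : ℂ))))‖ * ‖ee (dt μ z)‖
      = ∏ i, Real.exp (-(2 * Real.pi * |(μ i : ℝ)|)) := by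
    intro y
    rw [norm_ee, norm_ee, ← Real.exp_add, ← Real.exp_sum]
    congr 1
    rw [Complex.neg_im, dt_im, dt_im]
    unfold dt
    simp only [Finset.mul_sum, Finset.sum_neg_distrib, ← Finset.sum_neg_distrib,
      ← Finset.sum_add_distrib]
    refine Finset.sum_congr rfl fun i _ => ?_
    unfold imv shv
    simp only [Complex.add_im, Complex.sub_im, Complex.ofReal_im, add_zero]
    by_cases hμ : 0 ≤ μ i
    · have h2 : s i = true := by simp [hs, sg, hμ]
      have h3 : (0 : ℝ) ≤ μ i := by exact_mod_cast hμ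
      rw [h2, abs_of_nonneg h3]
      simp
      ring
    · have h2 : s i = false := by simp [hs, sg, hμ]
      have h3 : (μ i : ℝ) ≤ 0 := by
        push Not at hμ
        exact_mod_cast hμ.le
      rw [h2, abs_of_nonpos h3]
      simp
      ring
  have hne : 0 < ‖ee (dt μ z)‖ := by
    rw [norm_ee]
    exact Real.exp_pos _
  have h2 : ‖∫ y in Icc (0 : Fin 20 → ℝ) 1, c τ (fun i => shv z s i + (y i : ℂ)) *
      ee (-(dt μ (fun i => shv z s i + (y i : ℂ))))‖
      ≤ (|M s| * (∏ i, Real.exp (-(2 * Real.pi * |(μ i : ℝ)|)) / 1) / ‖ee (dt μ z)‖)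
        * (volume.real (Icc (0 : Fin 20 → ℝ) 1)) := by
    refine norm_setIntegral_le_of_norm_le_const (by rw [hvol]; exact ENNReal.one_lt_top) ?_
    intro y hy
    rw [norm_mul, mul_div_assoc]
    refine mul_le_mul ((hM s y hy).trans (le_abs_self _)) ?_ (norm_nonneg _) (abs_nonneg _)
    simp only [div_one]
    rw [le_div_iff₀ hne, him y]
  have h3 : volume.real (Icc (0 : Fin 20 → ℝ) 1) = 1 := by
    unfold Measure.real
    rw [hvol]
    rfl
  rw [h3, mul_one] at h2
  simp only [div_one] at h2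
  have h4 := mul_le_mul_of_nonneg_right h2 hne.le
  rw [div_mul_cancel₀ _ hne.ne'] at h4
  refine h4.trans ?_
  refine mul_le_mul_of_nonneg_right ?_ (Finset.prod_nonneg fun i _ => (Real.exp_pos _).le)
  exact Finset.single_le_sum (f := fun s => |M s|) (fun s _ => abs_nonneg _) (Finset.mem_univ s)

theorem fc_summable (hc : JacobiZero A c) {τ : ℂ} (hτ : 0 < τ.im) (z : Fin 20 → ℂ) :
    Summable fun μ : Fin 20 → ℤ => fc c μ τ * ee (dt μ z) := by
  obtain ⟨M, hM⟩ := fc_decay hc hτ z
  have h1 := (summable_prod (fun m : ℤ => Real.exp (-(2 * Real.pi * |(m : ℝ)|)))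
    (fun m => (Real.exp_pos _).le) summable_exp_abs 20).mul_left M
  exact Summable.of_norm_bounded h1 hM

theorem fourier_exp (hc : JacobiZero A c) {τ : ℂ} (hτ : 0 < τ.im) (z : Fin 20 → ℂ) :
    HasSum (fun μ : Fin 20 → ℤ => fc c μ τ * ee (dt μ z)) (c τ z) := by
  set g : (Fin 20 → ℝ) → ℂ := fun x => c τ (fun i => z i + (x i : ℂ)) with hg
  have hper : ∀ (x : Fin 20 → ℝ) (v : Fin 20 → ℤ), g (fun i => x i + (v i : ℝ)) = g x := by
    intro x v
    have := hc.perz τ (fun i => z i + (x i : ℂ)) v hτ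
    simp only [hg]
    rw [← this]
    congr 1
    funext i
    push_cast
    ring
  have hcont : Continuous g := (slice_diff hc hτ).continuous.comp (by fun_prop)
  set F : C(UnitAddTorus (Fin 20), ℂ) := ⟨lift0 g, lift0_continuous hper hcont⟩ with hF
  have hFm : ∀ x : Fin 20 → ℝ, F (fun i => (x i : UnitAddCircle)) = g x := fun x =>
    lift0_mk hper x
  have hcoef : ∀ μ : Fin 20 → ℤ, UnitAddTorus.mFourierCoeff F μ = fc c μ τ * ee (dt μ z) := by
    intro μ
    rw [UnitAddTorus.mFourierCoeff_eq_integral F μ 0]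
    rw [shift_fc hc μ hτ z, ← setIntegral_congr_set box_ae, ← integral_mul_const]
    refine integral_congr_ae (Filter.Eventually.of_forall fun y => ?_)
    simp only [smul_eq_mul]
    rw [mFourier_mk, hFm]
    simp only [hg]
    rw [mul_assoc, ← ee_add, mul_comm]
    congr 2
    have e1 : dt μ (fun i => z i + (y i : ℂ)) = dt μ z + dt μ (fun i => (y i : ℂ)) := by
      rw [← dt_add]
      rfl
    have e2 : dt (-μ) (fun i => (y i : ℂ)) = - dt μ (fun i => (y i : ℂ)) := by
      simp [dt]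
    rw [e1, e2]
    ring
  have hsum : Summable (UnitAddTorus.mFourierCoeff F) := by
    have : UnitAddTorus.mFourierCoeff F = fun μ => fc c μ τ * ee (dt μ z) := funext hcoef
    rw [this]
    exact fc_summable hc hτ z
  have h1 := UnitAddTorus.hasSum_mFourier_series_apply_of_summable hsum
    (fun i => (((0 : Fin 20 → ℝ) i : ℝ) : UnitAddCircle))
  rw [hFm] at h1
  have h2 : g 0 = c τ z := by
    simp [hg]
  rw [h2] at h1
  refine h1.congr_fun fun μ => ?_
  rw [hcoef, mFourier_mk]
  have : dt μ (fun i => (((0 : Fin 20 → ℝ) i : ℝ) : ℂ)) = 0 := by simp [dt]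
  rw [this, ee_zero, smul_eq_mul, mul_one]

/-- **JobTheta1** -/
theorem theta1 : JobTheta1 := by
  intro A c h hc
  obtain ⟨h1, h2, h3, h4⟩ := theta1a A c h hc
  exact ⟨h1, h2, h3, h4, fun τ z hτ => fourier_exp hc hτ z⟩

end

end Pool.Agent.H140.RL
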